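import Pool.Agent.Y228.RR.Top
import Pool.Agent.TH192.DT.MotZ

set_option autoImplicit false

/-! # The equivariant motivic monodromy conjecture for products of powers of forms over ideals with Rees divisors

Let `I_t ≠ 0`, `t ∈ T`, be ideals of `ℂ[x]` with the generators `g t j`, let `F_t = ∑_j y_{t,j} g t j`,
where the `y_{t,j}` are further variables, separate for each `t`, and let `f = ∏ t, F_t ^ a t`
(`powProd a g`).

Let `Y` be a log resolution of the product of the `I_t`, with the exceptional components `E_i`, `i ∈ I`;
let `k i` be the multiplicity of `E_i` in the relative canonical divisor and `m i t` the order of `I_t`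
along `E_i`. Locally on `Y` the form `F_t` is a generator of `I_t` times
`y_{t,j} + ∑_{l ≠ j} h_l y_{t,l}`; hence `Y` times the space of the `y` is an embedded resolution of `f`,
with the components `E_i`, of multiplicity `N_i = ∑ t, a t * m i t` and `ν_i = k i + 1`, and, for
`a t > 0`, the strict transform of `F_t = 0`, with multiplicity `a t` and `ν = 1` (`mulR`, `nuR`).

By the formula of Denef and Loeser the equivariant motivic zeta function of `f` over
`X_s = {f = 0}` is `∑_I k_I ∏_{i ∈ I} 𝕃 ^ (-ν_i) T ^ (N_i) / (1 - 𝕃 ^ (-ν_i) T ^ (N_i))` (`dlZ`), where `I`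
runs over the non-empty sets of components with `N_i > 0` and `k_I ∈ 𝓜^μ_{X_s}` is
`(𝕃 - 1) ^ (|I| - 1)` times the class of the covering of the stratum `I` with its action of `μ`. The
ring `R` below is a commutative ring with a unit `u`, for example `R = 𝓜^μ_{X_s}` with `u = 𝕃`.

The theorem needs that the numbers `-ν_i / N_i` come from Rees divisors (`FromRees g a 1 ν N`): this says
that `ν / N = (k_E + 1 + l) / N_E` for a Rees divisor `E` of the product of the ideals `I_t` with
`a t ≠ 0`, where `l < N_E` is the order along `E` of some polynomial (for instance `1`, with `l = 0`);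
for a component `E_i` which is itself a Rees divisor this is so with `E = E_i` and `l = 0`. Here
`Chart g` is a formal chart of the resolution at a point `p` of a prime divisor `E` over the affine
space: power series `ξ i` (the coordinates `x i`), in formal coordinates at `p` one of which, `z`, is the
equation of `E`, whose Jacobian determinant is `z ^ k` times a unit, and for which each `I_t` becomes
`(z ^ m t)`. `E.IsRees A` says that the map from `E` to the product of the affine space and of the
projective spaces of the generators of the `I_t`, `t ∈ A`, is unramified at `p`; this is so at the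
general points of `E` if and only if `E` is a Rees divisor of the product of the `I_t`, `t ∈ A`.

The proof: a functional equation of `f` gives a functional equation of the product of the ideals, with
the same `b`; the Rees divisors of this product give roots of `b`, and the strict transforms give the
roots `-1 / a t`. All this is in the starting library (`Pool.Agent.Y231.RF`, `Pool.Agent.Y228.RR`,
`Pool.Agent.TH192.DT`); the starting results `ReesProducts`, `ReesProductsLocal`, `ReesTwisted` use it
for topological zeta functions. -/

namespace Pool.Agent.Results.MP_b48657_ag.ReesProducts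

open Pool.Agent.H628R4.TP Pool.Agent.TH192.DT Pool.Agent.Y231.RF Pool.Agent.Y228.RR

/-- There is a finite set `P` of pairs `(p, q)`, `p < 0 < q`, such that `p / q` is a root of every `b` with
`b(s) f ^ s = P(s) f ^ (s + 1)`, in particular of the Bernstein-Sato polynomial of
`f = ∏ t, F_t ^ a t`, and for every commutative ring `R` with a unit `u` (`𝓜^μ_{X_s}` and `𝕃`) every
series which is given by the formula of Denef and Loeser on the resolution described above, with
arbitrary `c I ∈ R`, lies in the ring generated over `R` by `T` and the `1 / (1 - u ^ p T ^ q)`,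
`(p, q) ∈ P`. -/
def Main : Prop :=
  ∀ {σ T I : Type} [Fintype σ] [DecidableEq σ] [Fintype T] [DecidableEq T] [Fintype I]
    {κ : T → Type} [∀ t, Fintype (κ t)] [∀ t, DecidableEq (κ t)]
    (g : (t : T) → κ t → MvPolynomial σ ℂ) (_ : ∀ t, ∃ j, g t j ≠ 0) (a : T → ℕ)
    (k : I → ℕ) (m : I → T → ℕ)
    (_ : ∀ i, 0 < ∑ t, a t * m i t → FromRees g a 1 (k i + 1) (∑ t, a t * m i t)),
    ∃ P : Finset (ℤ × ℤ), (∀ q ∈ P, q.1 < 0 ∧ 0 < q.2 ∧
      ∀ b : Polynomial ℂ, IsBFunction (powProd a g) b → b.eval ((q.1 : ℂ) / q.2) = 0) ∧
    ∀ (R : Type) [CommRing R] (u : Rˣ) (c : Finset {x // 0 < mulR a m x} → R),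
      dlZ u (nuR k T) (mulR a m) c ∈ ratU u (P : Set (ℤ × ℤ))

/-- **The equivariant motivic monodromy conjecture (Q1) for products of powers of forms over ideals
whose exceptional divisors are Rees divisors.** -/
theorem result : Main := by
  intro σ T I _ _ _ _ _ κ _ _ g hg a k m hE
  refine ⟨pairs (nuR k T) (mulR a m), fun q hq =>
    ⟨(pairs_sign _ _ (nuR_pos k) q hq).1, (pairs_sign _ _ (nuR_pos k) q hq).2,
      fun b hb => ?_⟩, fun R _ u c => dlZ_mem u _ _ c⟩
  obtain ⟨x, hx, rfl⟩ := Finset.mem_image.1 hq
  have hN : 0 < mulR a m x := (Finset.mem_filter.1 hx).2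
  rcases x with i | t
  · have hpos : 0 < ∑ t, a t * m i t := hN
    have ha : ∃ t, a t ≠ 0 := by
      obtain ⟨t, _, ht⟩ := Finset.exists_ne_zero_of_sum_ne_zero hpos.ne'
      exact ⟨t, left_ne_zero_of_mul ht⟩
    obtain ⟨H, hH, hHb⟩ := locEq_global a g b hb ha
    have h := root_of_from a g b H hHb _ _ hpos ((hE i hpos).congr hH)
    push_cast
    exact_mod_cast h
  · have ht : 0 < a t := hN
    have h := (powData_global a g hg b hb).strict t 0 ht
    rw [Nat.cast_zero, add_zero] at h
    have h2 : (((-(nuR k T (Sum.inr t) : ℤ), (mulR a m (Sum.inr t) : ℤ)) : ℤ × ℤ).1 : ℂ) /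
        (((-(nuR k T (Sum.inr t) : ℤ), (mulR a m (Sum.inr t) : ℤ)) : ℤ × ℤ).2 : ℂ)
        = -1 / (a t : ℂ) := by
      change (((-((1 : ℕ) : ℤ)) : ℤ) : ℂ) / (((a t : ℕ) : ℤ) : ℂ) = _
      push_cast
      rfl
    rw [h2]
    exact h

end Pool.Agent.Results.MP_b48657_ag.ReesProducts
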