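import Pool.Agent.TH187.SA.Classes
import Pool.Agent.TH187.SA.Mult
import Pool.Agent.TH192.DT.MotZ

set_option autoImplicit false

/-! # The equivariant motivic monodromy conjecture for products of powers of forms over products of linear ideals

Let `L s = zeros (c s)`, `s ∈ S`, be proper linear subspaces of the affine space `ℂ ^ σ`, given as the
zeros of linear forms with the coefficients `c s j`. For `t ∈ T` let
`F_t = ∑_j y_{t,j} M_{t,j}(x)`, where the `M_{t,j}` are the products of these linear forms, `e t s`
of them from the family of index `s`, `s ∈ S` (`arrGen`; they generate the ideal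
`∏ s, I(L s) ^ e t s`), and the `y_{t,j}` are further variables, separate for each `t`
(`blockForm`). Let `f = ∏ t, F_t ^ a t` (`powProd`).

Let `𝒢` be a building set of linear subspaces (De Concini and Procesi) which contains the `L s`
which occur in `f`, for example the set of these `L s`, if it is closed under intersections. Let
`Y` be the wonderful model, which is obtained from the affine space by blowing up the strict
transforms of the members of `𝒢`, in the order of the dimension. It is smooth, the components `E_G`,
`G ∈ 𝒢`, cross normally, the multiplicity of the Jacobian determinant along `E_G` is `ν_G - 1` with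
`ν_G = codim G`, and the ideal of `L s` becomes the ideal of the divisor `∑ E_G`, over the
`G ⊆ L s`. So locally on `Y` the form `F_t` is one of the `M_{t,j}` times
`y_{t,j} + ∑_{i ≠ j} g_i y_{t,i}`; hence `Y` times the space of the `y` is an embedded resolution of
`f`, with the components `E_G`, of multiplicity `N_G = ∑ t, a t ∑ e t s`, the second sum over the
`s` with `G ⊆ L s`, and, for `a t > 0`, the strict transform of `F_t = 0`, with multiplicity `a t`
and `ν = 1` (`mulA`, `nuA`). 

By the formula of Denef and Loeser the equivariant motivic zeta function of `f` over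
`X_s = {f = 0}` is `∑_I k_I ∏_{i ∈ I} 𝕃 ^ (-ν_i) T ^ (N_i) / (1 - 𝕃 ^ (-ν_i) T ^ (N_i))` (`dlZ`), where `I`
runs over the non-empty sets of components and `k_I ∈ 𝓜^μ_{X_s}` is `(𝕃 - 1) ^ (|I| - 1)` times the
class of the covering of the stratum `I` with its action of `μ`. The ring `R` below is a
commutative ring with a unit `u`, for example `R = 𝓜^μ_{X_s}` with `u = 𝕃`.

The theorem needs that the `G` are Rees flats (`IsReesFlat`; an equivalent condition is that `E_G` is
a Rees divisor of the product of the `I(L s)`). This is so for the `L s` themselves (`SelfRees`);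
hence the theorem applies to all `f` for which the `L s` which occur are a building set, in
particular if they are closed under intersections.

Let now `L s = H_s ⊗ ℂ ^ m`, where `H_s` is the hyperplane `α s = 0` of `ℂ ^ ι` (`copies`). Then the
`X ⊗ ℂ ^ m` (`power`), `X` an irreducible flat of the `H_s` which occur, are a building set. They are
Rees flats if `codim X ≤ m`; so the theorem applies to all arrangements of hyperplanes of rank at
most `m`. They are also Rees flats if `X` is constructible (`IsConstructible`) and `m ≥ 2`; the
irreducible flats of a supersolvable arrangement are constructible (`MultRees`). For example, this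
applies to the diagonals `x_i = x_j` of the configurations of `n` points in `ℂ ^ m`, `m ≥ 2`, if all
the pairs occur, or if the pairs which occur are the edges of a chordal graph.

The proof is in the starting library `Pool.Agent.TH187`, `Pool.Agent.TH192`: a functional equation of
`f` gives a functional equation of the product of the ideals, with the same `b`, and the `E_G` are
Rees divisors of this ideal; the roots `-1 / a t` come from the strict transforms. The starting
results `SubspaceProducts`, `SubspaceProductsLocal`, ... use this for topological zeta functions. -/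

namespace Pool.Agent.Results.MP_b48657_ag.SubspaceProducts

open Pool.Agent.W574.HS Pool.Agent.H628R4.TP Pool.Agent.TH192.DT Pool.Agent.TH187.SA

/-- There is a finite set `P` of pairs `(a, b)`, `a < 0 < b`, such that `a / b` is a root of every `b` with
`b(s) f ^ s = P(s) f ^ (s + 1)`, in particular of the Bernstein-Sato polynomial of
`f = ∏ t, F_t ^ a t`, and for every commutative ring `R` with a unit `u` (`𝓜^μ_{X_s}` and `𝕃`) every
series which is given by the formula of Denef and Loeser on the resolution described above, with
arbitrary `k I ∈ R`, lies in the ring generated over `R` by `T` and the `1 / (1 - u ^ a T ^ b)`,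
`(a, b) ∈ P`. -/
def Main : Prop :=
  ∀ {σ S T I : Type} [Fintype σ] [DecidableEq σ] [Fintype S] [DecidableEq S] [Fintype T]
    [DecidableEq T] [Fintype I] {κ : S → Type} [∀ s, Fintype (κ s)] [∀ s, DecidableEq (κ s)]
    (c : (s : S) → κ s → σ → ℂ) (_ : ∀ s, ∃ j, c s j ≠ 0) (e : T → S → ℕ) (a : T → ℕ)
    (G : I → Submodule ℂ (σ → ℂ))
    (_ : ∀ i, IsReesFlat (fun s => zeros (c s)) (Occurs e a) (G i)),
    ∃ P : Finset (ℤ × ℤ), (∀ q ∈ P, q.1 < 0 ∧ 0 < q.2 ∧
      ∀ b : Polynomial ℂ, IsBFunction (powProd a fun t => arrGen c (e t)) b →
        b.eval ((q.1 : ℂ) / q.2) = 0) ∧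
    ∀ (R : Type) [CommRing R] (u : Rˣ)
      (k : Finset {x // 0 < mulA (fun s => zeros (c s)) e a G x} → R),
      dlZ u (nuA G T) (mulA (fun s => zeros (c s)) e a G) k ∈ ratU u (P : Set (ℤ × ℤ))

/-- Proper subspaces are Rees flats of every finite family which contains them. -/
def SelfRees : Prop :=
  ∀ {σ S : Type} [Fintype σ] [DecidableEq σ] [Finite S] (H : S → Submodule ℂ (σ → ℂ))
    (A : S → Prop), (∀ s, A s → H s ≠ ⊤) → ∀ s, A s → IsReesFlat H A (H s)

/-- Let `L s = H_s ⊗ ℂ ^ m`, where `H_s` is the hyperplane `α s = 0`. Let `X` be an irreducible flat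
of the `H_s`, `s ∈ A`, of codimension at most `m`, or let `m ≥ 2` and let `X` be constructible from
the `H_s`, `s ∈ A`. Then `X ⊗ ℂ ^ m` is a Rees flat of the `L s`, `s ∈ A`, of codimension
`m codim X`. -/
def MultRees : Prop :=
  ∀ {ι S : Type} [Fintype ι] [DecidableEq ι] [Finite S] (m : ℕ) (α : S → ι → ℂ) (A : S → Prop)
    (X : Submodule ℂ (ι → ℂ)), (∀ s, A s → α s ≠ 0) →
    (IsIrreducibleFlat α A X ∧ Fintype.card ι ≤ m + Module.finrank ℂ X ∨
      IsConstructible α A X ∧ 2 ≤ m) →
    IsReesFlat (fun s => zeros (copies m (α s))) A (power m X) ∧
      Fintype.card (ι × Fin m) - Module.finrank ℂ (power m X)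
        = m * (Fintype.card ι - Module.finrank ℂ X)

/-- **The equivariant motivic monodromy conjecture (Q1) for `f = ∏ t, F_t ^ a t`**, the `F_t` general
forms (with new variables as coefficients) over products of powers of ideals of linear subspaces, on
the wonderful model of a building set of Rees flats; and two criteria for Rees flats. -/
theorem result : Main ∧ SelfRees ∧ MultRees := by
  refine ⟨?_, ?_, ?_⟩
  · intro σ S T I _ _ _ _ _ _ _ κ _ _ c hc e a G hG
    refine ⟨pairs (nuA G T) (mulA (fun s => zeros (c s)) e a G), fun q hq =>
      ⟨(pairs_sign _ _ (nuA_pos G hG) q hq).1, (pairs_sign _ _ (nuA_pos G hG) q hq).2,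
        fun b hb => pairs_roots _ _ (nuA_pos G hG) b (fun x l hl => pow_arr c e a G hG b
          (powData_global a _ (fun t => arrGen_ne c hc (e t)) b hb) x l hl) q hq⟩,
      fun R _ u k => dlZ_mem u _ _ k⟩
  · intro σ S _ _ _ H A hH s hs
    exact isReesFlat_self H A hH s hs
  · intro ι S _ _ _ m α A X h0 hX
    exact ⟨isReesFlat_multiple m α A X h0 hX, codim_power m X⟩

end Pool.Agent.Results.MP_b48657_ag.SubspaceProducts
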